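import Mathlib
import Pool.Agent.K4H41.SA.Main

namespace Pool.Agent.Results.MP_c30652_gt.NotMaximal

open K4H41.SA

/-- For every closed hyperbolic surface `Γ \ ℍ²` and every `d ≥ 4` there is a domain of
discontinuity `U` in the `SL(d,ℂ)`-character variety which can be added to each domain of
discontinuity (the union is again one), and which is contained in none of the simple `k`-Anosov
domains, `1 ≤ k ≤ d - 1`. Hence none of the simple `k`-Anosov domains is a maximal domain of
discontinuity. -/
theorem result (Γ : Subgroup G2) (hΓ : IsSurfaceGroup Γ) (d : ℕ) (hd : 4 ≤ d) :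
    ∃ U : Set (CharVar Γ d), IsDoD U ∧
      (∀ A : Set (CharVar Γ d), IsDoD A → IsDoD (A ∪ U)) ∧
      ∀ k : ℕ, 1 ≤ k → k < d →
        ¬ U ⊆ SimpleAnosovDomain Γ d k ∧ ¬ IsMaximalDoD (SimpleAnosovDomain Γ d k) :=
  main hΓ hd

end Pool.Agent.Results.MP_c30652_gt.NotMaximal
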